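import Mathlib

/-!
Traces and changes of the base field.
-/

set_option autoImplicit false

open Module

namespace Pool.Agent.U598.GT

/-- **Linearly disjoint extensions.** -/
theorem base_change {L K E K1 : Type*} [Field L] [Field K] [Field E] [Field K1] [Algebra L K]
    [Algebra E K1] [Algebra L E] [Algebra K K1] [Algebra L K1] [IsScalarTower L E K1]
    [IsScalarTower L K K1] [FiniteDimensional L K] {ι : Type*} [Fintype ι] (b : Basis ι L K)
    (hli : LinearIndependent E (fun i => algebraMap K K1 (b i)))
    (hgen : IntermediateField.adjoin E (Set.range (algebraMap K K1)) = ⊤) :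
    FiniteDimensional E K1 ∧ finrank E K1 = finrank L K ∧
      ∀ u : K, Algebra.trace E K1 (algebraMap K K1 u) = algebraMap L E (Algebra.trace L K u) := by
  classical
  have hrep : ∀ u : K, algebraMap K K1 u =
      ∑ i, algebraMap L E (b.repr u i) • algebraMap K K1 (b i) := by
    intro u
    conv_lhs => rw [← b.sum_repr u]
    rw [map_sum]
    refine Finset.sum_congr rfl fun i _ => ?_
    rw [Algebra.smul_def, map_mul, ← IsScalarTower.algebraMap_apply L K K1, Algebra.smul_def,
      ← IsScalarTower.algebraMap_apply L E K1]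
  have hspan : ⊤ ≤ Submodule.span E (Set.range fun i => algebraMap K K1 (b i)) := by
    intro w _
    have h1 : w ∈ (IntermediateField.adjoin E (Set.range (algebraMap K K1))).toSubalgebra := by
      rw [hgen]
      trivial
    rw [IntermediateField.adjoin_toSubalgebra_of_isAlgebraic (by
      rintro _ ⟨u, rfl⟩
      exact (((Algebra.IsIntegral.isIntegral (R := L) u).map
        (IsScalarTower.toAlgHom L K K1)).tower_top (A := E)).isAlgebraic)] at h1
    have h2 : w ∈ Submodule.span E (Submonoid.closure (Set.range (algebraMap K K1)) : Set K1) := by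
      rw [← Algebra.adjoin_eq_span]
      exact h1
    have h3 : (Submonoid.closure (Set.range (algebraMap K K1)) : Set K1) =
        Set.range (algebraMap K K1) := by
      have h4 : Submonoid.closure (Set.range (algebraMap K K1)) =
          MonoidHom.mrange (algebraMap K K1 : K →* K1) := by
        rw [← Submonoid.closure_eq (MonoidHom.mrange (algebraMap K K1 : K →* K1))]
        rfl
      rw [h4]
      rfl
    rw [h3] at h2
    refine Submodule.span_le.2 ?_ h2
    rintro _ ⟨u, rfl⟩
    rw [SetLike.mem_coe, hrep u]
    exact Submodule.sum_mem _ fun i _ => Submodule.smul_mem _ _ (Submodule.subset_span ⟨i, rfl⟩)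
  let b1 : Basis ι E K1 := Basis.mk hli hspan
  have hb1 : ∀ i, b1 i = algebraMap K K1 (b i) := fun i => Basis.mk_apply hli hspan i
  have hfd : FiniteDimensional E K1 := Module.Finite.of_basis b1
  refine ⟨hfd, ?_, fun u => ?_⟩
  · rw [finrank_eq_card_basis b1, finrank_eq_card_basis b]
  · rw [Algebra.trace_eq_matrix_trace b1, Algebra.trace_eq_matrix_trace b, Matrix.trace,
      Matrix.trace, map_sum]
    refine Finset.sum_congr rfl fun i _ => ?_
    rw [Matrix.diag_apply, Matrix.diag_apply, Algebra.leftMulMatrix_eq_repr_mul,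
      Algebra.leftMulMatrix_eq_repr_mul, hb1, ← map_mul, hrep (u * b i)]
    have h5 : ∑ j, algebraMap L E (b.repr (u * b i) j) • algebraMap K K1 (b j) =
        ∑ j, algebraMap L E (b.repr (u * b i) j) • b1 j :=
      Finset.sum_congr rfl fun j _ => by rw [hb1]
    rw [h5, b1.repr_sum_self]

/-- **Quadratic extensions.** -/
theorem quad {E2 E K1 : Type*} [Field E2] [CharZero E2] [Field E] [Field K1] [Algebra E2 E]
    [Algebra E K1] [Algebra E2 K1] [IsScalarTower E2 E K1] [FiniteDimensional E K1]
    (ν : E ≃ₐ[E2] E) {a : E} (ha : ν a = -a)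
    (hE : ∀ w : E, ∃ α β : E2, w = algebraMap E2 E α + algebraMap E2 E β * a) :
    FiniteDimensional E2 K1 ∧ finrank E2 K1 ≤ 2 * finrank E K1 ∧ ∀ (w : K1) (t : E2),
      Algebra.trace E K1 w = algebraMap E2 E t →
        Algebra.trace E2 K1 (algebraMap E K1 a * w) = 0 := by
  classical
  have hspan : Submodule.span E2 (Set.range ![(1 : E), a]) = ⊤ := by
    rw [eq_top_iff]
    intro w _
    obtain ⟨α, β, rfl⟩ := hE w
    refine Submodule.add_mem _ ?_ ?_
    · rw [← mul_one (algebraMap E2 E α), ← Algebra.smul_def]
      exact Submodule.smul_mem _ _ (Submodule.subset_span ⟨0, rfl⟩)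
    · rw [← Algebra.smul_def]
      exact Submodule.smul_mem _ _ (Submodule.subset_span ⟨1, rfl⟩)
  have hfd : FiniteDimensional E2 E :=
    Module.finite_def.2 ⟨(Set.finite_range ![(1 : E), a]).toFinset, by
      rw [Set.Finite.coe_toFinset]
      exact hspan⟩
  have h2 : finrank E2 E ≤ 2 := by
    have h1 := finrank_range_le_card (R := E2) ![(1 : E), a]
    rw [Set.finrank, hspan, finrank_top, Fintype.card_fin] at h1
    exact h1
  have hfd2 : FiniteDimensional E2 K1 := FiniteDimensional.trans E2 E K1
  refine ⟨hfd2, ?_, fun w t hw => ?_⟩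
  · rw [← finrank_mul_finrank E2 E K1]
    exact Nat.mul_le_mul_right _ h2
  · have ht : Algebra.trace E2 E a = 0 := by
      have h1 := Algebra.trace_eq_of_algEquiv ν a
      rw [ha, map_neg] at h1
      have h2 : (2 : E2) * Algebra.trace E2 E a = 0 := by linear_combination -h1
      exact (mul_eq_zero.1 h2).resolve_left two_ne_zero
    rw [← Algebra.trace_trace (R := E2) (S := E), ← Algebra.smul_def, map_smul, hw, smul_eq_mul,
      mul_comm, ← Algebra.smul_def, map_smul, ht, smul_zero]

end Pool.Agent.U598.GT
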