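import Pool.Agent.U598.GT.Exp
import Pool.Agent.U598.GT.Base

/-!
The two embeddings of a field with a derivation in the field of Laurent series.
-/

set_option autoImplicit false
set_option linter.unusedSectionVars false

open PowerSeries

namespace Pool.Agent.U598.GT

section

variable {k K : Type} [Field k] [Field K] [CharZero K] [Algebra k K]

/-- the field of Laurent series -/
abbrev SS (K : Type) [Field K] : Type := FractionRing (PowerSeries K)

theorem neg_neg' (f : PowerSeries K) : evalNegHom (evalNegHom f) = f := by
  rw [evalNegHom, rescale_rescale]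
  simp

theorem neg_inj : Function.Injective (evalNegHom : PowerSeries K →+* PowerSeries K) := by
  intro f g h
  rw [← neg_neg' f, h, neg_neg']

theorem neg_C (c : K) : evalNegHom (C c : PowerSeries K) = C c := by
  ext n
  rw [evalNegHom, coeff_rescale, coeff_C]
  split_ifs with h
  · rw [h, pow_zero, one_mul]
  · rw [mul_zero]

/-- the change of the sign of the variable -/
noncomputable def nu : SS K →+* SS K := IsFractionRing.map (neg_inj (K := K))

theorem nu_coe (f : PowerSeries K) :
    nu (algebraMap (PowerSeries K) (SS K) f) = algebraMap (PowerSeries K) (SS K) (evalNegHom f) := by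
  rw [nu, IsFractionRing.map]
  exact IsLocalization.map_eq _ f

theorem nu_nu (s : SS K) : nu (nu s) = s := by
  obtain ⟨f, g, -, rfl⟩ := IsFractionRing.div_surjective (A := PowerSeries K) s
  rw [map_div₀, map_div₀, nu_coe, nu_coe, nu_coe, nu_coe, neg_neg', neg_neg']

theorem algebraMap_SS (c : k) : algebraMap k (SS K) c =
    algebraMap (PowerSeries K) (SS K) (C (algebraMap k K c)) := by
  rw [IsScalarTower.algebraMap_apply k (PowerSeries K) (SS K), PowerSeries.algebraMap_apply]

theorem nu_const (c : k) : nu (algebraMap k (SS K) c) = algebraMap k (SS K) c := by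
  rw [algebraMap_SS, nu_coe, neg_C]

/-- the first embedding -/
noncomputable def Phi (D : Derivation k K K) : K →ₐ[k] SS K where
  toRingHom := (algebraMap (PowerSeries K) (SS K)).comp (expD D)
  commutes' c := by
    change algebraMap (PowerSeries K) (SS K) (expD D (algebraMap k K c)) = _
    rw [expD_apply, ser_const D (D.map_algebraMap c), algebraMap_SS]

theorem Phi_apply (D : Derivation k K K) (u : K) :
    Phi D u = algebraMap (PowerSeries K) (SS K) (expD D u) := rfl

/-- the second embedding -/
noncomputable def Phi' (D : Derivation k K K) : K →ₐ[k] SS K where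
  toRingHom := (algebraMap (PowerSeries K) (SS K)).comp (evalNegHom.comp (expD D))
  commutes' c := by
    change algebraMap (PowerSeries K) (SS K) (evalNegHom (expD D (algebraMap k K c))) = _
    rw [expD_apply, ser_const D (D.map_algebraMap c), neg_C, algebraMap_SS]

theorem Phi'_apply (D : Derivation k K K) (u : K) :
    Phi' D u = algebraMap (PowerSeries K) (SS K) (evalNegHom (expD D u)) := rfl

theorem nu_Phi (D : Derivation k K K) (u : K) : nu (Phi D u) = Phi' D u := nu_coe _

theorem nu_Phi' (D : Derivation k K K) (u : K) : nu (Phi' D u) = Phi D u := by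
  rw [← nu_Phi, nu_nu]

theorem Phi_eq (D : Derivation k K K) {u : K} (hu : D u = 0) : Phi' D u = Phi D u := by
  rw [Phi_apply, Phi'_apply, expD_apply, ser_const D hu, neg_C]

theorem Phi_ne (D : Derivation k K K) {u : K} (hu : D u ≠ 0) : Phi D u ≠ Phi' D u := by
  intro h
  rw [Phi_apply, Phi'_apply] at h
  have h1 := IsFractionRing.injective (PowerSeries K) (SS K) h
  have h2 := congrArg (coeff 1) h1
  rw [evalNegHom, coeff_rescale, coeff_one_expD, pow_one] at h2
  apply hu
  have h3 : (2 : K) * D u = 0 := by linear_combination h2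
  exact (mul_eq_zero.1 h3).resolve_left two_ne_zero

end

section

variable {k L K : Type} [Field k] [Field L] [Field K] [CharZero K] [Algebra k L] [Algebra k K]
  [Algebra L K] [IsScalarTower k L K]

variable (k L K) in
/-- the Laurent series with coefficients in the subfield -/
def SL : IntermediateField k (SS K) where
  carrier := {s | ∃ p q : PowerSeries L, q ≠ 0 ∧
    s * algebraMap (PowerSeries K) (SS K) (PowerSeries.map (algebraMap L K) q) =
      algebraMap (PowerSeries K) (SS K) (PowerSeries.map (algebraMap L K) p)}
  mul_mem' := by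
    rintro s t ⟨p, q, hq, hs⟩ ⟨p', q', hq', ht⟩
    refine ⟨p * p', q * q', mul_ne_zero hq hq', ?_⟩
    rw [map_mul, map_mul, map_mul, map_mul, ← hs, ← ht]
    ring
  add_mem' := by
    rintro s t ⟨p, q, hq, hs⟩ ⟨p', q', hq', ht⟩
    refine ⟨p * q' + p' * q, q * q', mul_ne_zero hq hq', ?_⟩
    rw [map_mul, map_add, map_mul, map_add, map_mul, map_mul, map_mul, map_mul, ← hs, ← ht]
    ring
  algebraMap_mem' c := by
    refine ⟨C (algebraMap k L c), 1, one_ne_zero, ?_⟩
    rw [map_one, map_one, mul_one, algebraMap_SS, PowerSeries.map_C,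
      ← IsScalarTower.algebraMap_apply k L K]
  inv_mem' := by
    rintro s ⟨p, q, hq, hs⟩
    by_cases h0 : p = 0
    · rw [h0, map_zero, map_zero] at hs
      have hq' : algebraMap (PowerSeries K) (SS K) (PowerSeries.map (algebraMap L K) q) ≠ 0 := by
        rw [Ne, map_eq_zero_iff _ (IsFractionRing.injective (PowerSeries K) (SS K)),
          map_eq_zero_iff _ (PowerSeries.map_injective _ (algebraMap L K).injective)]
        exact hq
      have hs0 : s = 0 := (mul_eq_zero.1 hs).resolve_right hq'
      refine ⟨0, 1, one_ne_zero, ?_⟩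
      rw [hs0, inv_zero, zero_mul, map_zero, map_zero]
    · have hp' : algebraMap (PowerSeries K) (SS K) (PowerSeries.map (algebraMap L K) p) ≠ 0 := by
        rw [Ne, map_eq_zero_iff _ (IsFractionRing.injective (PowerSeries K) (SS K)),
          map_eq_zero_iff _ (PowerSeries.map_injective _ (algebraMap L K).injective)]
        exact h0
      have hs0 : s ≠ 0 := by
        rintro rfl
        rw [zero_mul] at hs
        exact hp' hs.symm
      refine ⟨q, p, h0, ?_⟩
      rw [← hs, inv_mul_cancel_left₀ hs0]

theorem expD_mem (D : Derivation k K K) {D' : L → L}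
    (hD : ∀ l, D (algebraMap L K l) = algebraMap L K (D' l)) (l : L) :
    ∃ p : PowerSeries L, expD D (algebraMap L K l) = PowerSeries.map (algebraMap L K) p := by
  have h1 : ∀ n : ℕ, (D^[n]) (algebraMap L K l) = algebraMap L K ((D'^[n]) l) := by
    intro n
    induction n with
    | zero => rfl
    | succ n ih => rw [Function.iterate_succ_apply', ih, hD, Function.iterate_succ_apply']
  refine ⟨PowerSeries.mk fun n => (n.factorial : L)⁻¹ * (D'^[n]) l, ?_⟩
  ext n
  rw [expD_apply, coeff_ser, PowerSeries.coeff_map, coeff_mk, h1, map_mul, map_inv₀, map_natCast]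

theorem Phi_mem_SL (D : Derivation k K K) {D' : L → L}
    (hD : ∀ l, D (algebraMap L K l) = algebraMap L K (D' l)) (l : L) :
    Phi D (algebraMap L K l) ∈ SL k L K := by
  obtain ⟨p, hp⟩ := expD_mem D hD l
  refine ⟨p, 1, one_ne_zero, ?_⟩
  rw [map_one, map_one, mul_one, Phi_apply, hp]

theorem Phi'_mem_SL (D : Derivation k K K) {D' : L → L}
    (hD : ∀ l, D (algebraMap L K l) = algebraMap L K (D' l)) (l : L) :
    Phi' D (algebraMap L K l) ∈ SL k L K := by
  obtain ⟨p, hp⟩ := expD_mem D hD l
  refine ⟨evalNegHom p, 1, one_ne_zero, ?_⟩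
  rw [map_one, map_one, mul_one, Phi'_apply, hp]
  congr 1
  ext n
  rw [evalNegHom, evalNegHom, coeff_rescale, PowerSeries.coeff_map, PowerSeries.coeff_map,
    coeff_rescale, map_mul, map_pow, map_neg, map_one]

/-- linear independence of a basis over the power series -/
theorem lin_series (D : Derivation k K K) {ι : Type} [Fintype ι] (b : Module.Basis ι L K)
    (g : ι → PowerSeries L)
    (hg : ∑ i, PowerSeries.map (algebraMap L K) (g i) * expD D (b i) = 0) : ∀ i, g i = 0 := by
  classical
  have key : ∀ n, ∀ i, coeff n (g i) = 0 := by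
    intro n
    induction n using Nat.strong_induction_on with
    | _ n ih =>
      have h1 := congrArg (coeff n) hg
      rw [map_sum, map_zero] at h1
      have h2 : ∀ i, coeff n (PowerSeries.map (algebraMap L K) (g i) * expD D (b i)) =
          coeff n (g i) • b i := by
        intro i
        rw [coeff_mul, Finset.sum_eq_single (n, 0)]
        · rw [PowerSeries.coeff_map, coeff_zero_eq_constantCoeff_apply, constantCoeff_expD,
            Algebra.smul_def]
        · rintro ⟨a, c⟩ hac hne
          rw [Finset.HasAntidiagonal.mem_antidiagonal] at hac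
          dsimp only at hac ⊢
          rw [PowerSeries.coeff_map, ih a (by
            rcases Nat.lt_or_ge a n with h | h
            · exact h
            · exfalso
              apply hne
              have : a = n := by omega
              subst this
              have : c = 0 := by omega
              rw [this]) i, map_zero, zero_mul]
        · intro h
          exact absurd (Finset.HasAntidiagonal.mem_antidiagonal.2 (add_zero n)) h
      simp only [h2] at h1
      exact Fintype.linearIndependent_iff.1 b.linearIndependent _ h1
  intro i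
  ext n
  rw [key n i, map_zero]

theorem lin_SL (D : Derivation k K K) {ι : Type} [Fintype ι] (b : Module.Basis ι L K)
    (g : ι → SS K) (hgm : ∀ i, g i ∈ SL k L K) (hg : ∑ i, g i * Phi D (b i) = 0) :
    ∀ i, g i = 0 := by
  classical
  choose p q hq hpq using hgm
  obtain ⟨Q, hQ⟩ : ∃ Q : PowerSeries L, Q = ∏ i, q i := ⟨_, rfl⟩
  have hinj : ∀ f : PowerSeries L,
      algebraMap (PowerSeries K) (SS K) (PowerSeries.map (algebraMap L K) f) = 0 → f = 0 := by
    intro f hf
    rwa [map_eq_zero_iff _ (IsFractionRing.injective (PowerSeries K) (SS K)),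
      map_eq_zero_iff _ (PowerSeries.map_injective _ (algebraMap L K).injective)] at hf
  have hQi : ∀ i, Q = q i * ∏ j ∈ Finset.univ.erase i, q j := fun i => by
    rw [hQ, Finset.mul_prod_erase _ _ (Finset.mem_univ i)]
  have h1 : ∀ i, g i * algebraMap (PowerSeries K) (SS K) (PowerSeries.map (algebraMap L K) Q) =
      algebraMap (PowerSeries K) (SS K) (PowerSeries.map (algebraMap L K)
        (p i * ∏ j ∈ Finset.univ.erase i, q j)) := by
    intro i
    rw [hQi i, map_mul, map_mul, map_mul, map_mul, ← mul_assoc, hpq]
  have h2 : ∀ i, p i * ∏ j ∈ Finset.univ.erase i, q j = 0 := by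
    refine lin_series D b _ ?_
    apply IsFractionRing.injective (PowerSeries K) (SS K)
    rw [map_zero, map_sum]
    have h3 : (∑ i, g i * Phi D (b i)) *
        algebraMap (PowerSeries K) (SS K) (PowerSeries.map (algebraMap L K) Q) = 0 := by
      rw [hg, zero_mul]
    rw [← h3, Finset.sum_mul]
    refine Finset.sum_congr rfl fun i _ => ?_
    rw [map_mul, ← h1, Phi_apply]
    ring
  intro i
  have h3 : p i = 0 := by
    refine (mul_eq_zero.1 (h2 i)).resolve_right (Finset.prod_ne_zero_iff.2 fun j _ => hq j)
  have h4 := hpq i
  rw [h3, map_zero, map_zero] at h4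
  exact (mul_eq_zero.1 h4).resolve_right fun h => hq i (hinj _ h)

end

end Pool.Agent.U598.GT
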