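import Pool.Agent.U598.GT.Core1

/-!
The points of two fibres which are exchanged by an involution are conjugate.
-/

set_option autoImplicit false
set_option linter.unusedSectionVars false

open PowerSeries

namespace Pool.Agent.U598.GT

section

variable {k M K : Type} [Field k] [Field M] [Field K] [CharZero K] [Algebra k M] [Algebra k K]
  [Algebra M K] [IsScalarTower k M K]

/-- a root of a separable polynomial has a unique lift -/
theorem lift_unique [Algebra.IsAlgebraic M K] (D : Derivation k K K) {z : K} (hz : D z ≠ 0)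
    (h : (minpoly M z).eval₂ ((Phi D : K →+* SS K).comp (algebraMap M K)) (Phi' D z) = 0) :
    False := by
  have hcM : CharZero M := (algebraMap M K).charZero_iff (algebraMap M K).injective |>.2 inferInstance
  have hint : IsIntegral M z := (Algebra.IsAlgebraic.isAlgebraic z).isIntegral
  obtain ⟨P, hP⟩ : ∃ P, P = minpoly M z := ⟨_, rfl⟩
  have hsep : P.Separable := by
    rw [hP]
    exact (minpoly.irreducible hint).separable
  have hPz : Polynomial.aeval z P = 0 := by
    rw [hP]
    exact minpoly.aeval M z
  have hPz' : Polynomial.aeval z (Polynomial.derivative P) ≠ 0 :=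
    hsep.aeval_derivative_ne_zero hPz
  rw [← hP] at h
  obtain ⟨α, hα⟩ : ∃ α : PowerSeries K, α = expD D z := ⟨_, rfl⟩
  obtain ⟨β, hβ⟩ : ∃ β : PowerSeries K, β = evalNegHom (expD D z) := ⟨_, rfl⟩
  have hne : β ≠ α := by
    rw [hα, hβ]
    intro h1
    refine Phi_ne D hz ?_
    rw [Phi_apply, Phi'_apply, h1]
  obtain ⟨Q, hQ⟩ : ∃ Q : Polynomial (PowerSeries K),
    Q = P.map ((expD D).comp (algebraMap M K)) := ⟨_, rfl⟩
  have hQα : Q.eval α = 0 := by
    rw [hQ, hα, Polynomial.eval_map, ← Polynomial.hom_eval₂]
    change expD D (Polynomial.aeval z P) = 0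
    rw [hPz, map_zero]
  have hQβ : Q.eval β = 0 := by
    apply IsFractionRing.injective (PowerSeries K) (SS K)
    rw [map_zero, ← h, hQ, Polynomial.eval_map, Polynomial.hom_eval₂, hβ]
    rfl
  obtain ⟨c, hc⟩ := Q.binomExpansion α (β - α)
  rw [add_sub_cancel, hQα, hQβ, zero_add] at hc
  have h1 : (Q.derivative.eval α + c * (β - α)) * (β - α) = 0 := by
    rw [hc]
    ring
  have h2 : Q.derivative.eval α + c * (β - α) = 0 :=
    (mul_eq_zero.1 h1).resolve_right (sub_ne_zero.2 hne)
  have h3 := congrArg (constantCoeff (R := K)) h2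
  have hcc : constantCoeff (β - α) = 0 := by
    rw [map_sub, hα, hβ, constantCoeff_expD, evalNegHom, ← coeff_zero_eq_constantCoeff_apply,
      coeff_rescale, pow_zero, one_mul, coeff_zero_eq_constantCoeff_apply, constantCoeff_expD,
      sub_self]
  rw [map_add, map_mul, hcc, mul_zero, add_zero, map_zero] at h3
  apply hPz'
  rw [← h3, hQ, Polynomial.derivative_map, Polynomial.eval_map, Polynomial.hom_eval₂, hα,
    constantCoeff_expD]
  have h4 : (constantCoeff (R := K)).comp ((expD D).comp (algebraMap M K)) = algebraMap M K := by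
    refine RingHom.ext fun m => ?_
    exact constantCoeff_expD D _
  rw [h4]
  rfl

end

end Pool.Agent.U598.GT
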