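import Pool.Agent.U598.GT.Core2

/-!
Two points of the base which are exchanged by an involution: the null trace over the field of the
invariants.
-/

set_option autoImplicit false
set_option linter.unusedSectionVars false
set_option linter.overlappingInstances false

open PowerSeries

namespace Pool.Agent.U598.GT

theorem dec_id {F : Type*} [Field F] {w n a : F} (h2 : (2 : F) ≠ 0) (ha : a ≠ 0) :
    w = (w + n) / 2 + (w - n) / (2 * a) * a := by
  field_simp
  ring

theorem dec_id2 {F : Type*} [Field F] {w n a : F} (h2 : (2 : F) ≠ 0) (ha : a ≠ 0) :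
    (n - w) / (2 * -a) = (w - n) / (2 * a) := by
  field_simp
  ring

/-- **Doubling.** -/
theorem double_abs {k M L K S : Type} [Field k] [Field M] [Field L] [Field K] [Field S]
    [CharZero S] [Algebra k M] [Algebra k L] [Algebra k K] [Algebra k S] [Algebra M K]
    [Algebra L K] [IsScalarTower k M K] [IsScalarTower k L K] [FiniteDimensional L K]
    (Φ Φ' : K →ₐ[k] S) (nu : S →+* S) (nu_nu : ∀ s, nu (nu s) = s)
    (nu_const : ∀ c : k, nu (algebraMap k S c) = algebraMap k S c) (nu_Phi : ∀ u, nu (Φ u) = Φ' u)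
    (SL : IntermediateField k S) (hSL : ∀ l : L, Φ (algebraMap L K l) ∈ SL)
    (hSL' : ∀ l : L, Φ' (algebraMap L K l) ∈ SL)
    (hlin : ∀ (b : Module.Basis (Fin (Module.finrank L K)) L K)
      (g : Fin (Module.finrank L K) → S), (∀ i, g i ∈ SL) → ∑ i, g i * Φ (b i) = 0 → ∀ i, g i = 0)
    {z : L} (hz : Φ (algebraMap L K z) ≠ Φ' (algebraMap L K z))
    (hlift : (minpoly M (algebraMap L K z)).eval₂ ((Φ : K →+* S).comp (algebraMap M K))
      (Φ' (algebraMap L K z)) ≠ 0)
    {N : ℕ} {x : Fin N → M} (hx : IntermediateField.adjoin k (Set.range x) = ⊤)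
    (hgen : IntermediateField.adjoin L (Set.range fun j => algebraMap M K (x j)) = ⊤)
    {ι : Type} (Ψ : ι → M) {h : K} (hh : h ≠ 0)
    (htr : ∀ i, Φ' (algebraMap L K (Algebra.trace L K (algebraMap M K (Ψ i) * h))) =
      Φ (algebraMap L K (Algebra.trace L K (algebraMap M K (Ψ i) * h)))) :
    ∃ (E : Type) (_ : Field E) (_ : Algebra k E) (K1 : Type) (_ : Field K1) (_ : Algebra k K1)
      (_ : Algebra M K1) (_ : IsScalarTower k M K1) (_ : Algebra E K1) (_ : IsScalarTower k E K1)
      (_ : FiniteDimensional E K1), Module.finrank E K1 ≤ 2 * Module.finrank L K ∧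
      (Algebra.EssFiniteType k K → Algebra.EssFiniteType k L → Algebra.EssFiniteType k K1) ∧
      IntermediateField.adjoin E (Set.range fun j => algebraMap M K1 (x j)) = ⊤ ∧
      ∃ h1 : K1, h1 ≠ 0 ∧ ∀ i, Algebra.trace E K1 (algebraMap M K1 (Ψ i) * h1) = 0 := by
  classical
  obtain ⟨E', hE'⟩ : ∃ E' : IntermediateField k (S), E' = IntermediateField.adjoin k
    (Set.range (fun l : L => Φ (algebraMap L K l)) ∪
      Set.range (fun l : L => Φ' (algebraMap L K l))) := ⟨_, rfl⟩
  have hPE : ∀ l : L, Φ (algebraMap L K l) ∈ E' := fun l => by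
    rw [hE']
    exact IntermediateField.subset_adjoin _ _ (Or.inl ⟨l, rfl⟩)
  have hPE' : ∀ l : L, Φ' (algebraMap L K l) ∈ E' := fun l => by
    rw [hE']
    exact IntermediateField.subset_adjoin _ _ (Or.inr ⟨l, rfl⟩)
  have hnuE : ∀ s ∈ E', nu s ∈ E' := by
    intro s hs
    rw [hE'] at hs
    induction hs using IntermediateField.adjoin_induction with
    | mem s hs =>
      rcases hs with ⟨l, rfl⟩ | ⟨l, rfl⟩
      · rw [nu_Phi]
        exact hPE' l
      · dsimp only
        rw [← nu_Phi, nu_nu]
        exact hPE l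
    | algebraMap c =>
      rw [nu_const]
      exact E'.algebraMap_mem c
    | add s t _ _ hs ht =>
      rw [map_add]
      exact E'.add_mem hs ht
    | inv s _ hs =>
      rw [map_inv₀]
      exact E'.inv_mem hs
    | mul s t _ _ hs ht =>
      rw [map_mul]
      exact E'.mul_mem hs ht
  have hES : E' ≤ SL := by
    rw [hE', IntermediateField.adjoin_le_iff]
    rintro _ (⟨l, rfl⟩ | ⟨l, rfl⟩)
    · exact hSL l
    · exact hSL' l
  obtain ⟨K1, hK1⟩ : ∃ K1 : IntermediateField k (S), K1 = IntermediateField.adjoin k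
    (Set.range (fun u : K => Φ u) ∪
      Set.range (fun l : L => Φ' (algebraMap L K l))) := ⟨_, rfl⟩
  have hPK : ∀ u : K, Φ u ∈ K1 := fun u => by
    rw [hK1]
    exact IntermediateField.subset_adjoin _ _ (Or.inl ⟨u, rfl⟩)
  have hPK' : ∀ l : L, Φ' (algebraMap L K l) ∈ K1 := fun l => by
    rw [hK1]
    exact IntermediateField.subset_adjoin _ _ (Or.inr ⟨l, rfl⟩)
  have hEK : E' ≤ K1 := by
    rw [hE', IntermediateField.adjoin_le_iff]
    rintro _ (⟨l, rfl⟩ | ⟨l, rfl⟩)
    · exact hPK _
    · exact hPK' l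
  obtain ⟨E2, hE2mem⟩ : ∃ E2 : IntermediateField k S, ∀ s, s ∈ E2 ↔ s ∈ E' ∧ nu s = s :=
    ⟨{ carrier := {s | s ∈ E' ∧ nu s = s}
       mul_mem' := fun {s t} hs ht => ⟨E'.mul_mem hs.1 ht.1, by rw [map_mul, hs.2, ht.2]⟩
       add_mem' := fun {s t} hs ht => ⟨E'.add_mem hs.1 ht.1, by rw [map_add, hs.2, ht.2]⟩
       algebraMap_mem' := fun c => ⟨E'.algebraMap_mem c, nu_const c⟩
       inv_mem' := fun s hs => ⟨E'.inv_mem hs.1, by rw [map_inv₀, hs.2]⟩ }, fun s => Iff.rfl⟩
  have hE2E : E2 ≤ E' := fun s hs => ((hE2mem s).1 hs).1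
  have hE2K : E2 ≤ K1 := hE2E.trans hEK
  -- the algebra structures
  let _ : Algebra E' K1 := (IntermediateField.inclusion hEK).toRingHom.toAlgebra
  let _ : Algebra E2 E' := (IntermediateField.inclusion hE2E).toRingHom.toAlgebra
  let _ : Algebra E2 K1 := (IntermediateField.inclusion hE2K).toRingHom.toAlgebra
  let _ : Algebra L E' := (((Φ : K →+* S).comp (algebraMap L K)).codRestrict E'
    hPE).toAlgebra
  let _ : Algebra K K1 := ((Φ : K →+* S).codRestrict K1 hPK).toAlgebra
  let _ : Algebra L K1 := (((Φ : K →+* S).comp (algebraMap L K)).codRestrict K1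
    fun l => hPK _).toAlgebra
  let _ : Algebra M K1 := (((Φ : K →+* S).comp (algebraMap M K)).codRestrict K1
    fun l => hPK _).toAlgebra
  have c1 : ∀ e : E', ((algebraMap E' K1 e : K1) : S) = e := fun _ => rfl
  have c2 : ∀ e : E2, ((algebraMap E2 E' e : E') : S) = e := fun _ => rfl
  have c3 : ∀ e : E2, ((algebraMap E2 K1 e : K1) : S) = e := fun _ => rfl
  have c4 : ∀ u : L, ((algebraMap L E' u : E') : S) = Φ (algebraMap L K u) := fun _ => rfl
  have c5 : ∀ u : K, ((algebraMap K K1 u : K1) : S) = Φ u := fun _ => rfl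
  have c6 : ∀ u : L, ((algebraMap L K1 u : K1) : S) = Φ (algebraMap L K u) := fun _ => rfl
  have c7 : ∀ u : M, ((algebraMap M K1 u : K1) : S) = Φ (algebraMap M K u) := fun _ => rfl
  have t1 : IsScalarTower E2 E' K1 := IsScalarTower.of_algebraMap_eq fun _ => rfl
  have t2 : IsScalarTower L E' K1 := IsScalarTower.of_algebraMap_eq fun _ => rfl
  have t3 : IsScalarTower L K K1 := IsScalarTower.of_algebraMap_eq fun _ => rfl
  have t4 : IsScalarTower k E2 K1 := IsScalarTower.of_algebraMap_eq fun _ => rfl
  have t5 : IsScalarTower k M K1 := IsScalarTower.of_algebraMap_eq fun c => by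
    apply Subtype.ext
    rw [c7, ← IsScalarTower.algebraMap_apply k M K, AlgHom.commutes]
    rfl
  have hcE2 : CharZero E2 := by
    have h1 : Function.Injective (algebraMap E2 S) := (algebraMap E2 S).injective
    exact (algebraMap E2 S).charZero_iff h1 |>.2 inferInstance
  -- the linearly disjoint extension
  let b := Module.finBasis L K
  have hgenE' : IntermediateField.adjoin E' (Set.range (algebraMap K K1)) = ⊤ := by
    rw [eq_top_iff]
    rintro ⟨s, hs⟩ -
    have key : ∀ s ∈ IntermediateField.adjoin k (Set.range (fun u : K => Φ u) ∪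
        Set.range (fun l : L => Φ' (algebraMap L K l))), ∀ hs : s ∈ K1,
        (⟨s, hs⟩ : K1) ∈ IntermediateField.adjoin E' (Set.range (algebraMap K K1)) := by
      intro s hs
      induction hs using IntermediateField.adjoin_induction with
      | mem s hs =>
        intro h
        rcases hs with ⟨u, rfl⟩ | ⟨l, rfl⟩
        · exact IntermediateField.subset_adjoin _ _ ⟨u, rfl⟩
        · exact (IntermediateField.adjoin E' (Set.range (algebraMap K K1))).algebraMap_mem
            ⟨_, hPE' l⟩
      | algebraMap c =>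
        intro h
        exact (IntermediateField.adjoin E' (Set.range (algebraMap K K1))).algebraMap_mem
          (algebraMap k E' c)
      | add u v hu hv ihu ihv =>
        intro h
        rw [← hK1] at hu hv
        have h1 : (⟨u + v, h⟩ : K1) = ⟨u, hu⟩ + ⟨v, hv⟩ := rfl
        rw [h1]
        exact add_mem (ihu hu) (ihv hv)
      | inv u hu ihu =>
        intro h
        rw [← hK1] at hu
        have h1 : (⟨u⁻¹, h⟩ : K1) = ⟨u, hu⟩⁻¹ := rfl
        rw [h1]
        exact inv_mem (ihu hu)
      | mul u v hu hv ihu ihv =>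
        intro h
        rw [← hK1] at hu hv
        have h1 : (⟨u * v, h⟩ : K1) = ⟨u, hu⟩ * ⟨v, hv⟩ := rfl
        rw [h1]
        exact mul_mem (ihu hu) (ihv hv)
    exact key s (hK1 ▸ hs) hs
  obtain ⟨hfd, hrank, htrace⟩ := base_change (L := L) (K := K) (E := E') (K1 := K1) b (by
    rw [Fintype.linearIndependent_iff]
    intro g hg i
    have h1 : ∑ i, (g i : S) * Φ (b i) = 0 := by
      have h2 := congrArg (fun w : K1 => (w : S)) hg
      simp only [IntermediateField.coe_zero] at h2
      rw [← h2]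
      have h3 : ∀ (T : Finset (Fin (Module.finrank L K))),
          ((∑ i ∈ T, g i • algebraMap K K1 (b i) : K1) : S) =
            ∑ i ∈ T, (g i : S) * Φ (b i) := by
        intro T
        induction T using Finset.induction_on with
        | empty => rfl
        | insert j T hj ih =>
          rw [Finset.sum_insert hj, Finset.sum_insert hj, ← ih]
          rfl
      exact (h3 _).symm
    exact Subtype.ext (hlin b (fun i => (g i : S)) (fun i => hES (g i).2) h1 i)) hgenE'
  -- the involution
  obtain ⟨ν, hν⟩ : ∃ ν : E' ≃ₐ[E2] E', ∀ e : E', ((ν e : E') : S) = nu e :=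
    ⟨{ toFun := fun e => ⟨nu e, hnuE e e.2⟩
       invFun := fun e => ⟨nu e, hnuE e e.2⟩
       left_inv := fun e => Subtype.ext (nu_nu _)
       right_inv := fun e => Subtype.ext (nu_nu _)
       map_mul' := fun s t => Subtype.ext (map_mul nu _ _)
       map_add' := fun s t => Subtype.ext (map_add nu _ _)
       commutes' := fun r => Subtype.ext ((hE2mem r).1 r.2).2 }, fun _ => rfl⟩
  obtain ⟨a, ha⟩ : ∃ a : E', a = ⟨_, hPE z⟩ - ⟨_, hPE' z⟩ := ⟨_, rfl⟩
  have hac : (a : S) = Φ (algebraMap L K z) - Φ' (algebraMap L K z) := by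
    rw [ha]
    rfl
  have ha0 : (a : S) ≠ 0 := by
    rw [hac]
    exact sub_ne_zero.2 hz
  have hnua : nu (a : S) = -(a : S) := by
    rw [hac, map_sub, nu_Phi, ← nu_Phi, nu_nu, neg_sub]
  have hνa : ν a = -a := Subtype.ext ((hν a).trans hnua)
  have hdec : ∀ w : E', ∃ α β : E2, w = algebraMap E2 E' α + algebraMap E2 E' β * a := by
    intro w
    have h2 : (2 : S) ≠ 0 := two_ne_zero
    have g1 : ((w : S) + nu w) / 2 ∈ E2 := by
      refine (hE2mem _).2 ⟨E'.div_mem (E'.add_mem w.2 (hnuE _ w.2)) (ofNat_mem E' 2), ?_⟩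
      rw [map_div₀, map_add, nu_nu, map_ofNat, add_comm]
    have g2 : ((w : S) - nu w) / (2 * (a : S)) ∈ E2 := by
      refine (hE2mem _).2 ⟨E'.div_mem (E'.sub_mem w.2 (hnuE _ w.2))
        (E'.mul_mem (ofNat_mem E' 2) a.2), ?_⟩
      rw [map_div₀, map_sub, nu_nu, map_mul, map_ofNat, hnua]
      exact dec_id2 h2 ha0
    refine ⟨⟨_, g1⟩, ⟨_, g2⟩, Subtype.ext ?_⟩
    rw [IntermediateField.coe_add, IntermediateField.coe_mul, c2, c2]
    exact dec_id h2 ha0
  obtain ⟨hfd2, hrank2, htrace2⟩ := quad (E2 := E2) (E := E') (K1 := K1) ν hνa hdec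
  refine ⟨E2, inferInstance, inferInstance, K1, inferInstance, inferInstance, inferInstance, t5,
    inferInstance, t4, hfd2, ?_, ?_, ?_, algebraMap E' K1 a * algebraMap K K1 h, ?_, fun i => ?_⟩
  · rw [hrank] at hrank2
    exact hrank2
  · intro hK hL
    obtain ⟨S0, hS0⟩ := IntermediateField.fg_top_iff.2 hK
    obtain ⟨T0, hT0⟩ := IntermediateField.fg_top_iff.2 hL
    rw [IntermediateField.essFiniteType_iff]
    obtain ⟨g, hg⟩ : ∃ g : L →ₐ[k] S, g = (Φ').comp (IsScalarTower.toAlgHom k L K) :=
      ⟨_, rfl⟩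
    refine ⟨S0.image (Φ) ∪ T0.image g, ?_⟩
    rw [Finset.coe_union, Finset.coe_image, Finset.coe_image]
    apply le_antisymm
    · rw [IntermediateField.adjoin_le_iff]
      rintro _ (⟨u, -, rfl⟩ | ⟨l, -, rfl⟩)
      · exact hPK u
      · rw [hg]
        exact hPK' l
    · rw [hK1, IntermediateField.adjoin_le_iff]
      rintro _ (⟨u, rfl⟩ | ⟨l, rfl⟩)
      · refine IntermediateField.adjoin.mono k _ _ Set.subset_union_left ?_
        rw [← IntermediateField.adjoin_map, hS0]
        exact ⟨u, trivial, rfl⟩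
      · refine IntermediateField.adjoin.mono k _ _ Set.subset_union_right ?_
        rw [← IntermediateField.adjoin_map, hT0]
        exact ⟨l, trivial, by rw [hg]; rfl⟩
  · obtain ⟨K2, hK2⟩ : ∃ K2 : IntermediateField E2 K1, K2 = IntermediateField.adjoin E2
      (Set.range fun j => algebraMap M K1 (x j)) := ⟨_, rfl⟩
    rw [← hK2]
    have hkK2 : ∀ c : k, algebraMap k K1 c ∈ K2 := fun c => by
      rw [IsScalarTower.algebraMap_apply k E2 K1]
      exact K2.algebraMap_mem _
    have hM : ∀ u : M, algebraMap M K1 u ∈ K2 := by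
      intro u
      have h1 : u ∈ IntermediateField.adjoin k (Set.range x) := by
        rw [hx]
        trivial
      induction h1 using IntermediateField.adjoin_induction with
      | mem u hu =>
        obtain ⟨j, rfl⟩ := hu
        rw [hK2]
        exact IntermediateField.subset_adjoin _ _ ⟨j, rfl⟩
      | algebraMap c =>
        rw [← IsScalarTower.algebraMap_apply k M K1]
        exact hkK2 c
      | add u v _ _ hu hv =>
        rw [map_add]
        exact K2.add_mem hu hv
      | inv u _ hu =>
        rw [map_inv₀]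
        exact K2.inv_mem hu
      | mul u v _ _ hu hv =>
        rw [map_mul]
        exact K2.mul_mem hu hv
    have haK : algebraMap E' K1 a ∈ K2 := by
      by_contra hna
      obtain ⟨aK, haK⟩ : ∃ aK : K1, aK = algebraMap E' K1 a := ⟨_, rfl⟩
      rw [← haK] at hna
      have hac' : (aK : S) = (a : S) := by
        rw [haK]
        rfl
      have h2 : (2 : S) ≠ 0 := two_ne_zero
      -- the square
      have g1 : (a : S) ^ 2 ∈ E2 :=
        (hE2mem _).2 ⟨pow_mem a.2 2, by rw [map_pow, hnua, neg_sq]⟩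
      obtain ⟨d, hd⟩ : ∃ d : K2, algebraMap K2 K1 d = aK ^ 2 := by
        refine ⟨algebraMap E2 K2 ⟨_, g1⟩, ?_⟩
        rw [← IsScalarTower.algebraMap_apply E2 K2 K1]
        apply Subtype.ext
        rw [c3, IntermediateField.coe_pow, hac']
      -- the half of the sum
      have g2 : (Φ (algebraMap L K z) + Φ' (algebraMap L K z)) / 2 ∈ E2 := by
        refine (hE2mem _).2 ⟨E'.div_mem (E'.add_mem (hPE z) (hPE' z)) (ofNat_mem E' 2), ?_⟩
        rw [map_div₀, map_add, nu_Phi, ← nu_Phi, nu_nu, map_ofNat, add_comm]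
      obtain ⟨e0, he0⟩ : ∃ e0 : K2, ((algebraMap K2 K1 e0 : K1) : S) =
          (Φ (algebraMap L K z) + Φ' (algebraMap L K z)) / 2 := by
        refine ⟨algebraMap E2 K2 ⟨_, g2⟩, ?_⟩
        rw [← IsScalarTower.algebraMap_apply E2 K2 K1, c3]
      obtain ⟨P, hP⟩ : ∃ P, P = minpoly M (algebraMap L K z) := ⟨_, rfl⟩
      let mK2 : M →+* K2 := (algebraMap M K1).codRestrict K2 hM
      have hmK2 : (algebraMap K2 K1).comp mK2 = algebraMap M K1 := RingHom.ext fun _ => rfl
      obtain ⟨Q, hQ⟩ : ∃ Q : Polynomial K2, Q = (P.map mK2).comp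
        (Polynomial.C e0 + Polynomial.C (2⁻¹ : K2) * Polynomial.X) := ⟨_, rfl⟩
      have hQe : ∀ t : K1, Polynomial.aeval t Q =
          P.eval₂ (algebraMap M K1) (algebraMap K2 K1 e0 + 2⁻¹ * t) := by
        intro t
        rw [hQ, Polynomial.aeval_comp, map_add, map_mul, Polynomial.aeval_C, Polynomial.aeval_C,
          Polynomial.aeval_X, map_inv₀, map_ofNat, Polynomial.aeval_def, Polynomial.eval₂_map, hmK2]
      have hMK1 : algebraMap M K1 = (algebraMap K K1).comp (algebraMap M K) :=
        RingHom.ext fun _ => rfl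
      have h1 : Polynomial.aeval aK Q = 0 := by
        have h3 : algebraMap K2 K1 e0 + 2⁻¹ * aK = algebraMap K K1 (algebraMap L K z) := by
          apply Subtype.ext
          rw [IntermediateField.coe_add, IntermediateField.coe_mul, he0, hac', hac, c5,
            IntermediateField.coe_inv]
          change _ + (2 : S)⁻¹ * _ = _
          field_simp
          ring
        rw [hQe, h3, hMK1, ← Polynomial.hom_eval₂]
        have h4 : P.eval₂ (algebraMap M K) (algebraMap L K z) = 0 := by
          rw [hP]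
          exact minpoly.aeval M _
        rw [h4, map_zero]
      have hint : IsIntegral K2 aK := by
        refine ⟨Polynomial.X ^ 2 - Polynomial.C d, Polynomial.monic_X_pow_sub_C d two_ne_zero, ?_⟩
        rw [Polynomial.eval₂_sub, Polynomial.eval₂_X_pow, Polynomial.eval₂_C, hd, sub_self]
      have hmin : Polynomial.X ^ 2 - Polynomial.C d = minpoly K2 aK := by
        refine Polynomial.eq_of_monic_of_dvd_of_natDegree_le (minpoly.monic hint)
          (Polynomial.monic_X_pow_sub_C d two_ne_zero) (minpoly.dvd K2 aK ?_) ?_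
        · rw [map_sub, map_pow, Polynomial.aeval_X, Polynomial.aeval_C, hd, sub_self]
        · rw [Polynomial.natDegree_X_pow_sub_C]
          have h3 := minpoly.natDegree_pos hint
          by_contra h4
          have h5 : (minpoly K2 aK).natDegree = 1 := by omega
          rw [minpoly.natDegree_eq_one_iff] at h5
          obtain ⟨e, he⟩ := h5
          apply hna
          rw [← he]
          exact e.2
      have h3 : Polynomial.aeval (-aK) Q = 0 := by
        obtain ⟨R, hR⟩ := minpoly.dvd K2 aK h1
        rw [hR, ← hmin, map_mul, map_sub, map_pow, Polynomial.aeval_X, Polynomial.aeval_C, hd,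
          neg_sq, sub_self, zero_mul]
      have h4 : algebraMap K2 K1 e0 + 2⁻¹ * (-aK) = ⟨_, hPK' z⟩ := by
        apply Subtype.ext
        rw [IntermediateField.coe_add, IntermediateField.coe_mul, he0, IntermediateField.coe_neg,
          hac', hac, IntermediateField.coe_inv]
        change _ + (2 : S)⁻¹ * _ = _
        field_simp
        ring
      rw [hQe, h4] at h3
      apply hlift
      have h5 := congrArg (algebraMap K1 S) h3
      rw [map_zero, Polynomial.hom_eval₂] at h5
      rw [← hP]
      exact h5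
    have hEK2 : ∀ e : E', algebraMap E' K1 e ∈ K2 := by
      intro e
      obtain ⟨α, β, rfl⟩ := hdec e
      rw [map_add, map_mul, ← IsScalarTower.algebraMap_apply E2 E' K1,
        ← IsScalarTower.algebraMap_apply E2 E' K1]
      exact K2.add_mem (K2.algebraMap_mem _) (K2.mul_mem (K2.algebraMap_mem _) haK)
    have hKK2 : ∀ u : K, algebraMap K K1 u ∈ K2 := by
      intro u
      have h1 : u ∈ IntermediateField.adjoin L (Set.range fun j => algebraMap M K (x j)) := by
        rw [hgen]
        trivial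
      induction h1 using IntermediateField.adjoin_induction with
      | mem u hu =>
        obtain ⟨j, rfl⟩ := hu
        exact hM (x j)
      | algebraMap c =>
        rw [← IsScalarTower.algebraMap_apply L K K1, IsScalarTower.algebraMap_apply L E' K1]
        exact hEK2 _
      | add u v _ _ hu hv =>
        rw [map_add]
        exact K2.add_mem hu hv
      | inv u _ hu =>
        rw [map_inv₀]
        exact K2.inv_mem hu
      | mul u v _ _ hu hv =>
        rw [map_mul]
        exact K2.mul_mem hu hv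
    rw [eq_top_iff]
    rintro ⟨s, hs⟩ -
    have key : ∀ s ∈ IntermediateField.adjoin k (Set.range (fun u : K => Φ u) ∪
        Set.range (fun l : L => Φ' (algebraMap L K l))), ∀ hs : s ∈ K1,
        (⟨s, hs⟩ : K1) ∈ K2 := by
      intro s hs
      induction hs using IntermediateField.adjoin_induction with
      | mem s hs =>
        intro h
        rcases hs with ⟨u, rfl⟩ | ⟨l, rfl⟩
        · exact hKK2 u
        · exact hEK2 ⟨_, hPE' l⟩
      | algebraMap c =>
        intro h
        exact hkK2 c
      | add u v hu hv ihu ihv =>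
        intro h
        rw [← hK1] at hu hv
        have h1 : (⟨u + v, h⟩ : K1) = ⟨u, hu⟩ + ⟨v, hv⟩ := rfl
        rw [h1]
        exact K2.add_mem (ihu hu) (ihv hv)
      | inv u hu ihu =>
        intro h
        rw [← hK1] at hu
        have h1 : (⟨u⁻¹, h⟩ : K1) = ⟨u, hu⟩⁻¹ := rfl
        rw [h1]
        exact K2.inv_mem (ihu hu)
      | mul u v hu hv ihu ihv =>
        intro h
        rw [← hK1] at hu hv
        have h1 : (⟨u * v, h⟩ : K1) = ⟨u, hu⟩ * ⟨v, hv⟩ := rfl
        rw [h1]
        exact K2.mul_mem (ihu hu) (ihv hv)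
    exact key s (hK1 ▸ hs) hs
  · refine mul_ne_zero ?_ ?_
    · intro h0
      exact ha0 (congrArg (fun w : K1 => (w : S)) h0)
    · exact (map_ne_zero _).2 hh
  · have h1 : algebraMap M K1 (Ψ i) = algebraMap K K1 (algebraMap M K (Ψ i)) := rfl
    have h2 : algebraMap M K1 (Ψ i) * (algebraMap E' K1 a * algebraMap K K1 h) =
        algebraMap E' K1 a * algebraMap K K1 (algebraMap M K (Ψ i) * h) := by
      rw [h1, map_mul]
      ring
    rw [h2]
    refine htrace2 _ ⟨Φ (algebraMap L K (Algebra.trace L K (algebraMap M K (Ψ i) * h))),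
      (hE2mem _).2 ⟨hPE _, ?_⟩⟩ ?_
    · rw [nu_Phi, htr]
    · rw [htrace]
      rfl

/-- **Doubling.** -/
theorem double {k M L K : Type} [Field k] [Field M] [Field L] [Field K] [CharZero K]
    [Algebra k M] [Algebra k L] [Algebra k K] [Algebra M K] [Algebra L K] [IsScalarTower k M K]
    [IsScalarTower k L K] [FiniteDimensional M K] [FiniteDimensional L K]
    (D : Derivation k K K) {D' : L → L} (hD : ∀ l, D (algebraMap L K l) = algebraMap L K (D' l))
    {z : L} (hz : D' z ≠ 0) {N : ℕ} {x : Fin N → M}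
    (hx : IntermediateField.adjoin k (Set.range x) = ⊤)
    (hgen : IntermediateField.adjoin L (Set.range fun j => algebraMap M K (x j)) = ⊤)
    {ι : Type} (Ψ : ι → M) {h : K} (hh : h ≠ 0)
    (htr : ∀ i, D' (Algebra.trace L K (algebraMap M K (Ψ i) * h)) = 0) :
    ∃ (E : Type) (_ : Field E) (_ : Algebra k E) (K1 : Type) (_ : Field K1) (_ : Algebra k K1)
      (_ : Algebra M K1) (_ : IsScalarTower k M K1) (_ : Algebra E K1) (_ : IsScalarTower k E K1)
      (_ : FiniteDimensional E K1), Module.finrank E K1 ≤ 2 * Module.finrank L K ∧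
      (Algebra.EssFiniteType k K → Algebra.EssFiniteType k L → Algebra.EssFiniteType k K1) ∧
      IntermediateField.adjoin E (Set.range fun j => algebraMap M K1 (x j)) = ⊤ ∧
      ∃ h1 : K1, h1 ≠ 0 ∧ ∀ i, Algebra.trace E K1 (algebraMap M K1 (Ψ i) * h1) = 0 := by
  have hcS : CharZero (SS K) :=
    charZero_of_injective_ringHom (f := (Phi D : K →+* SS K)) (RingHom.injective _)
  have hDz : D (algebraMap L K z) ≠ 0 := by
    rw [hD]
    exact (map_ne_zero _).2 hz
  exact double_abs (Phi D) (Phi' D) nu nu_nu nu_const (nu_Phi D) (SL k L K) (Phi_mem_SL D hD)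
    (Phi'_mem_SL D hD) (fun b g h1 h2 => lin_SL D b g h1 h2) (z := z) (Phi_ne D hDz)
    (fun h0 => lift_unique D hDz h0) hx hgen Ψ hh fun i => Phi_eq D (by
      rw [hD, htr, map_zero])

end Pool.Agent.U598.GT
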