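import Mathlib

/-!
The exponential of a derivation, as a homomorphism to the power series.
-/

set_option autoImplicit false
set_option linter.unusedSectionVars false

open PowerSeries

namespace Pool.Agent.U598.GT

section

variable {k K : Type*} [Field k] [Field K] [CharZero K] [Algebra k K]

/-- the power series of the exponential of the derivation -/
noncomputable def ser (D : Derivation k K K) (u : K) : PowerSeries K :=
  PowerSeries.mk fun n => (n.factorial : K)⁻¹ * (D^[n]) u

theorem coeff_ser (D : Derivation k K K) (u : K) (n : ℕ) :
    coeff n (ser D u) = (n.factorial : K)⁻¹ * (D^[n]) u := coeff_mk _ _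

theorem coeff_ser_succ (D : Derivation k K K) (u : K) (n : ℕ) :
    coeff (n + 1) (ser D u) * ((n : K) + 1) = coeff n (ser D (D u)) := by
  rw [coeff_ser, coeff_ser, Function.iterate_succ_apply, Nat.factorial_succ]
  push_cast
  have h1 : (n : K) + 1 ≠ 0 := Nat.cast_add_one_ne_zero n
  have h2 : (n.factorial : K) ≠ 0 := Nat.cast_ne_zero.2 (Nat.factorial_ne_zero n)
  field_simp

theorem ser_add (D : Derivation k K K) (u v : K) : ser D (u + v) = ser D u + ser D v := by
  ext n
  rw [map_add, coeff_ser, coeff_ser, coeff_ser, ← mul_add]
  congr 1
  have h1 : ∀ n : ℕ, ∀ u v : K, (D^[n]) (u + v) = (D^[n]) u + (D^[n]) v := by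
    intro n
    induction n with
    | zero =>
      intro u v
      rfl
    | succ n ih =>
      intro u v
      rw [Function.iterate_succ_apply, map_add, ih]
      rfl
  exact h1 n u v

theorem deriv_ser (D : Derivation k K K) (u : K) :
    derivative K (ser D u) = ser D (D u) := by
  ext n
  rw [coeff_derivative, coeff_ser_succ]

theorem ser_mul (D : Derivation k K K) (u v : K) : ser D (u * v) = ser D u * ser D v := by
  have key : ∀ n : ℕ, ∀ u v : K, coeff n (ser D (u * v)) = coeff n (ser D u * ser D v) := by
    intro n
    induction n with
    | zero =>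
      intro u v
      rw [coeff_zero_eq_constantCoeff_apply, coeff_zero_eq_constantCoeff_apply, map_mul,
        ← coeff_zero_eq_constantCoeff_apply, ← coeff_zero_eq_constantCoeff_apply,
        ← coeff_zero_eq_constantCoeff_apply, coeff_ser, coeff_ser, coeff_ser]
      simp
    | succ n ih =>
      intro u v
      have h1 : (n : K) + 1 ≠ 0 := Nat.cast_add_one_ne_zero n
      apply mul_right_cancel₀ h1
      rw [coeff_ser_succ, ← coeff_derivative, (derivative K).leibniz, deriv_ser, deriv_ser,
        D.leibniz, smul_eq_mul, smul_eq_mul, smul_eq_mul, smul_eq_mul, ser_add, map_add, map_add,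
        ih, ih]
  ext n
  exact key n u v

theorem ser_const (D : Derivation k K K) {u : K} (hu : D u = 0) : ser D u = C u := by
  ext n
  rw [coeff_ser, coeff_C]
  rcases n with _ | n
  · simp
  · rw [if_neg (Nat.succ_ne_zero n), Function.iterate_succ_apply, hu]
    have h1 : ∀ n : ℕ, (D^[n]) 0 = 0 := by
      intro n
      induction n with
      | zero => rfl
      | succ n ih => rw [Function.iterate_succ_apply, map_zero, ih]
    rw [h1, mul_zero]

/-- the exponential of a derivation -/
noncomputable def expD (D : Derivation k K K) : K →+* PowerSeries K where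
  toFun := ser D
  map_one' := by rw [ser_const D (D.map_one_eq_zero), map_one]
  map_mul' := ser_mul D
  map_zero' := by rw [ser_const D (map_zero D), map_zero]
  map_add' := ser_add D

theorem expD_apply (D : Derivation k K K) (u : K) : expD D u = ser D u := rfl

theorem constantCoeff_expD (D : Derivation k K K) (u : K) : constantCoeff (expD D u) = u := by
  rw [← coeff_zero_eq_constantCoeff_apply, expD_apply, coeff_ser]
  simp

theorem coeff_one_expD (D : Derivation k K K) (u : K) : coeff 1 (expD D u) = D u := by
  rw [expD_apply, coeff_ser]
  simp

end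

end Pool.Agent.U598.GT
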