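import Pool.Agent.U598.GT.Forms

/-!
Varieties which correspond in small degree to complete intersections are of general type.
-/

set_option autoImplicit false
set_option linter.overlappingInstances false
set_option linter.unusedSectionVars false

open FF MvPolynomial Pool.Agent.W602.GT Pool.Agent.Y184.NT

namespace Pool.Agent.U598.GT

/-- **The canonical map is generically finite.** -/
theorem canonical_finite {V L K : Type} [Field V] [Field L] [Field K] [Algebra ℂ V] [Algebra ℂ L]
    [Algebra ℂ K] [Algebra V K] [Algebra L K] [IsScalarTower ℂ V K] [IsScalarTower ℂ L K]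
    [Algebra.EssFiniteType ℂ V] [Algebra.EssFiniteType ℂ L] [FiniteDimensional V K]
    [FiniteDimensional L K]
    {n n' m c : ℕ} (hp : 1 ≤ n' + c) (hn : Algebra.trdeg ℂ V = n)
    {ω : (Fin n → Derivation ℂ V V) → V}
    (hω : IsPluri 1 ω) (hω0 : ∃ D, ω D ≠ 0) {x : Fin (n' + c + 1) → V} {j0 : Fin (n' + c + 1)}
    (hj0 : x j0 = 1)
    (hreg : ∀ (f : Fin m → Fin (n' + c + 1)) (P : Place ℂ V), Divisorial n P →
      RegAt P (fun D => (∏ k, x (f k)) * ω D))
    (hx : IntermediateField.adjoin ℂ (Set.range x) = ⊤)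
    (hgenK : IntermediateField.adjoin L (Set.range fun j => algebraMap V K (x j)) = ⊤)
    {δ : Fin c → ℕ} (hsum : ∑ j, δ j ≤ m + n' + c + 1)
    {f : Fin c → MvPolynomial (Fin (n' + c + 1)) ℂ} (hf : ∀ i : Fin c, (f i).totalDegree ≤ δ i)
    (hcomp : RingHom.ker (aeval x : MvPolynomial (Fin (n' + c + 1)) ℂ →ₐ[ℂ] V) ∈
      (Ideal.span (insert (X j0 - 1) (Set.range f))).minimalPrimes)
    (hdeg : (2 * (n' + c)) ^ c *
      ((4 * (n' + c)) ^ ((n' + c) * (n' + c + 1) / 2) * (2 * Module.finrank L K)) < ∏ j, δ j) :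
    ∃ θ : Fin (n + 1) → (Fin n → Derivation ℂ L L) → L,
      (∀ j, IsPluri 1 (θ j) ∧ ∀ P : Place ℂ L, Divisorial n P → RegAt P (θ j)) ∧
      ∃ G, θ 0 G ≠ 0 ∧ AlgebraicIndependent ℂ (fun i : Fin n => θ i.succ G / θ 0 G) := by
  classical
  have hcL : CharZero L := charZero_of_injective_algebraMap (algebraMap ℂ L).injective
  have hcK : CharZero K := charZero_of_injective_algebraMap (algebraMap ℂ K).injective
  have hessVK : Algebra.EssFiniteType V K := inferInstance
  have hessK : Algebra.EssFiniteType ℂ K := Algebra.EssFiniteType.comp ℂ V K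
  have hKtr : Algebra.trdeg ℂ K = n := Pool.Agent.Y172.trdeg_up (K := V) hn
  have hL : Algebra.trdeg ℂ L = n := Pool.Agent.Y184.NT.trdeg_below (K := K) hKtr
  obtain ⟨h, θ, G, hh, hθ1, hθ2, hθ3⟩ := forms (M := V) (K := K) (L := L) hn hω hω0
    (fun f : Fin m → Fin (n' + c + 1) => ∏ k, x (f k)) hreg
  -- a nonzero trace
  obtain ⟨f0, hf0⟩ : ∃ f0, θ f0 G ≠ 0 := by
    by_contra hcon
    push Not at hcon
    have h1 := Pool.Agent.U598.MD.main' (V := V) (E := L) (K := K) (m := m) hp hn hω hω0 hj0 hreg hx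
      hgenK hsum hf hcomp hh fun f => by
        have h2 := hcon f
        rw [hθ3, map_prod] at h2
        exact h2
    have h2 : (4 * (n' + c)) ^ ((n' + c) * (n' + c + 1) / 2) * Module.finrank L K ≤
        (4 * (n' + c)) ^ ((n' + c) * (n' + c + 1) / 2) * (2 * Module.finrank L K) :=
      Nat.mul_le_mul_left _ (by omega)
    have h3 := Nat.mul_le_mul_left ((2 * (n' + c)) ^ c) h2
    omega
  obtain ⟨S, hS⟩ : ∃ S : Set L, S = Set.range fun f => θ f G / θ f0 G := ⟨_, rfl⟩
  by_cases halg : Algebra.IsAlgebraic (Algebra.adjoin ℂ S) L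
  · -- the canonical map is generically finite
    obtain ⟨T, hT, hb⟩ := exists_isTranscendenceBasis_subset (R := ℂ) S
    have hcard := hb.cardinalMk_eq_trdeg
    rw [hL] at hcard
    have hcard2 : Cardinal.mk (Fin n) = Cardinal.mk T := by
      rw [hcard]
      simp
    obtain ⟨g⟩ := Cardinal.eq.1 hcard2
    rw [hS] at hT
    choose F hF using fun i => hT (g i).2
    refine ⟨Fin.cons (θ f0) fun i => θ (F i), fun j => ?_, G, ?_, ?_⟩
    · refine Fin.cases ?_ (fun j => ?_) j
      · rw [Fin.cons_zero]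
        exact ⟨hθ1 f0, hθ2 f0⟩
      · rw [Fin.cons_succ]
        exact ⟨hθ1 _, hθ2 _⟩
    · rw [Fin.cons_zero]
      exact hf0
    · simp only [Fin.cons_zero, Fin.cons_succ]
      have h1 := hb.1.comp g g.injective
      have h2 : (fun i => θ (F i) G / θ f0 G) = (Subtype.val : T → L) ∘ g := by
        funext i
        exact hF i
      rw [h2]
      exact h1
  · -- the canonical map has positive-dimensional fibres
    exfalso
    obtain ⟨DL, z, hz, hDS⟩ := exists_der halg
    obtain ⟨D, hD⟩ := Pool.Agent.Y172.exists_lift (k := ℂ) (K := L) (L := K) hL DL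
    obtain ⟨E, _, _, K1, _, _, _, _, _, _, _, hrank, hess, hgen1, h1, hh1, htr1⟩ :=
      double (k := ℂ) (M := V) (L := L) (K := K) D (D' := DL) hD hz hx hgenK
        (fun f : Fin m → Fin (n' + c + 1) => ∏ k, x (f k))
        (h := algebraMap L K (θ f0 G)⁻¹ * h)
        (mul_ne_zero ((map_ne_zero _).2 (inv_ne_zero hf0)) hh) (fun f => by
          have h2 : algebraMap V K (∏ k, x (f k)) * (algebraMap L K (θ f0 G)⁻¹ * h) =
              (θ f0 G)⁻¹ • (algebraMap V K (∏ k, x (f k)) * h) := by
            rw [Algebra.smul_def]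
            ring
          rw [h2, map_smul, ← hθ3, smul_eq_mul, mul_comm, ← div_eq_mul_inv]
          exact hDS _ (by rw [hS]; exact ⟨f, rfl⟩))
    have hessK1 := hess inferInstance inferInstance
    have hessE : Algebra.EssFiniteType ℂ E := Pool.Agent.TH466.QG.ess_below (K := K1)
    have h2 := Pool.Agent.U598.MD.main' (V := V) (E := E) (K := K1) (m := m) hp hn hω hω0 hj0 hreg
      hx hgen1 hsum hf hcomp hh1 fun f => by
        have h3 := htr1 f
        rwa [map_prod] at h3
    have h3 := Nat.mul_le_mul_left ((2 * (n' + c)) ^ c) (Nat.mul_le_mul_left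
      ((4 * (n' + c)) ^ ((n' + c) * (n' + c + 1) / 2)) hrank)
    omega

end Pool.Agent.U598.GT
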