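import Pool.Agent.U598.IK.Null
import Pool.Agent.U598.MD.Sub
import Pool.Agent.U598.GT.Core3

/-!
The traces of the canonical forms, and the canonical map.
-/

set_option autoImplicit false
set_option linter.overlappingInstances false
set_option linter.unusedSectionVars false

open FF Polynomial Pool.Agent.W602.GT Pool.Agent.W603.LV Pool.Agent.Y184.NT
open Pool.Agent.U598.IK

namespace Pool.Agent.U598.GT

/-- The traces of the canonical forms `Φ ω`. -/
theorem forms {M K L : Type} [Field M] [Field K] [Field L] [Algebra ℂ M] [Algebra ℂ K]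
    [Algebra ℂ L] [Algebra M K] [Algebra L K] [IsScalarTower ℂ M K] [IsScalarTower ℂ L K]
    [FiniteDimensional M K] [FiniteDimensional L K] {n : ℕ} [Algebra.EssFiniteType ℂ M]
    (hM : Algebra.trdeg ℂ M = n)
    {ω : (Fin n → Derivation ℂ M M) → M} (hω : IsPluri 1 ω) (hω0 : ∃ D, ω D ≠ 0)
    {ι : Type} (Φ : ι → M)
    (hreg : ∀ i, ∀ P : Place ℂ M, Divisorial n P → RegAt P (fun D => Φ i * ω D)) :
    ∃ (h : K) (θ : ι → (Fin n → Derivation ℂ L L) → L) (G : Fin n → Derivation ℂ L L), h ≠ 0 ∧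
      (∀ i, IsPluri 1 (θ i)) ∧ (∀ i, ∀ P : Place ℂ L, Divisorial n P → RegAt P (θ i)) ∧
      ∀ i, θ i G = Algebra.trace L K (algebraMap M K (Φ i) * h) := by
  classical
  have hessMK : Algebra.EssFiniteType M K := inferInstance
  have hessK : Algebra.EssFiniteType ℂ K := Algebra.EssFiniteType.comp ℂ M K
  have hessL : Algebra.EssFiniteType ℂ L := Pool.Agent.TH466.QG.ess_below (K := K)
  have hcL : CharZero L := charZero_of_injective_algebraMap (algebraMap ℂ L).injective
  have hK : Algebra.trdeg ℂ K = n := Pool.Agent.Y172.trdeg_up (K := M) hM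
  have hL : Algebra.trdeg ℂ L = n := trdeg_below (K := K) hK
  obtain ⟨z, EM, hz, hEM⟩ := Pool.Agent.Y172.exists_crd (k := ℂ) (K := M) hM
  choose EK hEK using fun i => Pool.Agent.Y172.exists_lift (k := ℂ) (K := M) (L := K) hM (EM i)
  have hzK : IsTranscendenceBasis ℂ (fun j => algebraMap M K (z j)) := hz.algebraMap_comp
  have hEKd := Pool.Agent.Y172.lift_dual hEM hEK
  obtain ⟨y, E, hy, hE⟩ := Pool.Agent.Y172.exists_crd (k := ℂ) (K := L) hL
  choose E' hE' using fun i => Pool.Agent.Y172.exists_lift (k := ℂ) (K := L) (L := K) hL (E i)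
  have hEind : LinearIndependent K E' := lift_ind hE hE'
  -- the forms
  have hωE : ω EM ≠ 0 := by
    intro h0
    obtain ⟨D, hD⟩ := hω0
    apply hD
    rw [Pool.Agent.Y172.pluri_coord hz hEM hω D, h0, mul_zero]
  obtain ⟨W, hWdef⟩ : ∃ W : ι → (Fin n → Derivation ℂ K K) → K,
    W = fun i => pull z (Φ i * ω EM) := ⟨_, rfl⟩
  have hWp : ∀ i, IsPluri 1 (W i) := fun i => by
    rw [hWdef]
    exact pull_pluri _ _
  have hWr : ∀ i (Q : Place ℂ K), Divisorial n Q → RegAt Q (W i) := by
    intro i Q hQ D hD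
    rw [hWdef]
    have hp : IsPluri 1 (fun D => Φ i * ω D) := by
      intro A D
      change Φ i * ω (fun i => ∑ j, A i j • D j) = _
      rw [hω A D]
      ring
    exact Pool.Agent.Y297.NT.t_Pull Pool.Agent.Y71.NT.t_abh M K n n hM hK z hz EM hEM
      (fun D => Φ i * ω D) hp (hreg i) Q hQ D hD
  obtain ⟨h, hhdef⟩ : ∃ h : K, h = pull z (ω EM) E' := ⟨_, rfl⟩
  have hh : h ≠ 0 := by
    rw [hhdef]
    exact mul_ne_zero (minor_ne hzK hEKd hEind) (by simpa using hωE)
  have hWE : ∀ i, W i E' = algebraMap M K (Φ i) * h := by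
    intro i
    rw [hWdef, hhdef]
    simp only [pull]
    rw [map_mul]
    ring
  refine ⟨h, fun i => trForm y (Algebra.trace L K (W i E')), E, hh, fun i => trForm_pluri y _,
    fun i P hP => trForm_reg hL hy hE hE' (W i) (hWp i) (hWr i) P hP, fun i => ?_⟩
  have h1 : (Matrix.of fun i j => E i (y j) : Matrix (Fin n) (Fin n) L) = 1 := by
    ext i j
    rw [Matrix.of_apply, hE, Matrix.one_apply]
  change trForm y (Algebra.trace L K (W i E')) E = _
  rw [trForm, h1, Matrix.det_one, one_mul, hWE]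

open scoped IntermediateField.algebraAdjoinAdjoin in
theorem alg_adjoin {k L : Type*} [Field k] [Field L] [Algebra k L] {S : Set L}
    (h : Algebra.IsAlgebraic (IntermediateField.adjoin k S) L) :
    Algebra.IsAlgebraic (Algebra.adjoin k S) L :=
  Algebra.IsAlgebraic.trans (Algebra.adjoin k S) (IntermediateField.adjoin k S) L

/-- a derivation which is zero on a subfield over which the field is not algebraic -/
theorem exists_der {L : Type} [Field L] [Algebra ℂ L] [Algebra.EssFiniteType ℂ L] {S : Set L}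
    (h : ¬ Algebra.IsAlgebraic (Algebra.adjoin ℂ S) L) :
    ∃ (D : Derivation ℂ L L) (z : L), D z ≠ 0 ∧ ∀ s ∈ S, D s = 0 := by
  classical
  have hcL : CharZero L := charZero_of_injective_algebraMap (algebraMap ℂ L).injective
  obtain ⟨L0, hL0⟩ : ∃ L0 : IntermediateField ℂ L, L0 = IntermediateField.adjoin ℂ S := ⟨_, rfl⟩
  have hcL0 : CharZero L0 := charZero_of_injective_algebraMap (algebraMap ℂ L0).injective
  have hess : Algebra.EssFiniteType L0 L := Algebra.EssFiniteType.of_comp ℂ L0 L
  obtain ⟨g, hg⟩ : ∃ g : ℕ, Algebra.trdeg L0 L = g := Cardinal.lt_aleph0.1 (trdeg_lt_aleph0 L0 L)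
  obtain ⟨y, E, hy, hE⟩ := Pool.Agent.Y172.exists_crd (k := L0) (K := L) hg
  rcases g with _ | g
  · exfalso
    apply h
    have h1 : Algebra.IsAlgebraic L0 L := by
      have h2 := hy.isAlgebraic
      rw [Set.range_eq_empty, Algebra.adjoin_empty] at h2
      exact Algebra.IsAlgebraic.trans L0 (⊥ : Subalgebra L0 L) L
    rw [hL0] at h1
    exact alg_adjoin h1
  · refine ⟨(E 0).restrictScalars ℂ, y 0, ?_, fun s hs => ?_⟩
    · change E 0 (y 0) ≠ 0
      rw [hE, if_pos rfl]
      exact one_ne_zero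
    · change E 0 s = 0
      have h1 : s ∈ L0 := by
        rw [hL0]
        exact IntermediateField.subset_adjoin _ _ hs
      exact (E 0).map_algebraMap (⟨s, h1⟩ : L0)

end Pool.Agent.U598.GT
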